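import Pool.Agent.Q40.LP.MainProof
import Pool.Agent.Q40.LP.TaskAbs1
import Pool.Agent.Q40.LP.TaskAnn
import Pool.Agent.Q40.LP.TaskBdd
import Pool.Agent.Q40.LP.TaskBil
import Pool.Agent.Q40.LP.TaskBound
import Pool.Agent.Q40.LP.TaskCirc
import Pool.Agent.Q40.LP.TaskCont
import Pool.Agent.Q40.LP.TaskDecomp
import Pool.Agent.Q40.LP.TaskFru
import Pool.Agent.Q40.LP.TaskFruAbs
import Pool.Agent.Q40.LP.TaskGauss
import Pool.Agent.Q40.LP.TaskInf
import Pool.Agent.Q40.LP.TaskInt
import Pool.Agent.Q40.LP.TaskKey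
import Pool.Agent.Q40.LP.TaskMP
import Pool.Agent.Q40.LP.TaskMin
import Pool.Agent.Q40.LP.TaskOp
import Pool.Agent.Q40.LP.TaskOrth
import Pool.Agent.Q40.LP.TaskPD
import Pool.Agent.Q40.LP.TaskPotRefl
import Pool.Agent.Q40.LP.TaskPpos
import Pool.Agent.Q40.LP.TaskRank
import Pool.Agent.Q40.LP.TaskRefl
import Pool.Agent.Q40.LP.TaskSolve
import Pool.Agent.Q40.LP.TaskSub
import Pool.Agent.Q40.LP.TaskSymm
import Pool.Agent.Q40.LP.TaskTest
import Pool.Agent.Q40.LP.TaskVpos

set_option autoImplicit false

/-!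
# Polarization does not decrease the negative eigenvalue of the logarithmic potential

Let `L_Ω` be the logarithmic potential operator of a bounded open plane set `Ω`. By a theorem of
Troutman it has exactly one negative eigenvalue if the transfinite diameter of `Ω` is greater than
`1`, and none otherwise; let `τ(Ω)` be this eigenvalue, or `0` if there is none. We prove
`τ(Ω) ≤ τ(P_H Ω)` for every polarization `P_H Ω` of every bounded open set `Ω`.

Proof. Let `v` be an eigenfunction for the eigenvalue `- s < 0` of `P_H Ω`. By the maximum principle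
for its potential, `v ≥ 0` (up to the sign). Let `A = Ω ∩ σ Ω` (`σ` the reflection). Split `v` into
its even part and the odd parts `α`, `β`, `γ` on `A` and on the points of `Ω \ σ Ω` and
`σ Ω \ Ω` in `H`. The same even part with `α' + β - γ` (`α'` odd on `A`) is a function on `Ω` with the
same `L²` norm up to `α'`. Minimising over the odd functions on `A` (on which the energy is positive)
the energies differ by `4 E(β - g, γ)`, where `g` is the odd function on `A` whose product with `s`
is there the potential of `β - g`; this potential is nonnegative on `H` by the maximum principle, and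
`γ ≥ 0` on `H`. So the new function on `Ω` has Rayleigh quotient at most `- s`, and, since `L_Ω` is a
rank one perturbation of a positive operator, `L_Ω` has an eigenvalue at most `- s`.

The 29 lemmas in `Pool.Agent.Q40.LP` were proved by helpers 7, 40, 47, 59, 103, 125, 132, 165, 168,
172, 182, 193, 194, 202, 213, 243, 256, 294, 309, 327, 74.
-/

open Set MeasureTheory

namespace Pool.Agent.Results.MP_86d647_an.PolarizationMonotone

/-- The logarithmic potential `∫ log (1 / |x - y|) u(y) dy`. -/
noncomputable def logPotential (u : ℂ → ℝ) (x : ℂ) : ℝ := ∫ y, Real.log (1 / ‖x - y‖) * u y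

/-- `τ` is an eigenvalue of the operator `u ↦ logPotential u` of `L²(Ω)`: there is a function `u`,
not zero almost everywhere, square integrable and zero off `Ω`, whose potential is `τ u` almost
everywhere in `Ω`. -/
def IsEigenvalue (Ω : Set ℂ) (τ : ℝ) : Prop :=
  ∃ u : ℂ → ℝ, (MemLp u 2 volume ∧ ∀ x, x ∉ Ω → u x = 0) ∧ (¬ u =ᵐ[volume] 0) ∧
    ∀ᵐ x, x ∈ Ω → logPotential u x = τ * u x

/-- The least negative eigenvalue of `Ω` (by Troutman there is at most one), or `0` if there is
none. -/
noncomputable def tau (Ω : Set ℂ) : ℝ := sInf ({0} ∪ {τ | τ < 0 ∧ IsEigenvalue Ω τ})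

/-- The function `x ↦ ⟨n, x⟩ - c`. -/
noncomputable def level (n : ℂ) (c : ℝ) (x : ℂ) : ℝ := n.re * x.re + n.im * x.im - c

/-- The open half-plane `⟨n, x⟩ > c`. -/
def halfPlane (n : ℂ) (c : ℝ) : Set ℂ := {x | 0 < level n c x}

/-- The reflection in the line `⟨n, x⟩ = c` (`n` a unit vector). -/
noncomputable def reflection (n : ℂ) (c : ℝ) (x : ℂ) : ℂ := x - (2 * level n c x : ℝ) * n

/-- The polarization of `Ω` with respect to the half-plane `⟨n, x⟩ > c`. -/
def polarization (n : ℂ) (c : ℝ) (Ω : Set ℂ) : Set ℂ :=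
  ((Ω ∪ reflection n c '' Ω) ∩ halfPlane n c) ∪ ((Ω ∩ reflection n c '' Ω) \ halfPlane n c)

open Pool.Agent.Q40.LP in
theorem tasks : TaskMin ∧ TaskBdd ∧ TaskTest := by
  have hInt : TaskInt := TaskInt.main
  have hBound : TaskBound := TaskBound.main
  have hCont : TaskCont := TaskCont.main hInt hBound
  have hSymm : TaskSymm := TaskSymm.main hInt hBound
  have hFru : TaskFru := TaskFru.main
  have hFruAbs : TaskFruAbs := TaskFruAbs.main hFru
  have hGauss : TaskGauss := TaskGauss.main
  have hPD : TaskPD := TaskPD.main hFru hFruAbs hGauss hInt hBound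
  have hCirc : TaskCirc := TaskCirc.main hInt hBound
  have hSub : TaskSub := TaskSub.main hInt hCirc
  have hInf : TaskInf := TaskInf.main hInt
  have hMP : TaskMP := TaskMP.main
  have hVpos : TaskVpos := TaskVpos.main hCont hInf hMP hSub
  have hAbs1 : TaskAbs1 := TaskAbs1.main
  have hOp : TaskOp := TaskOp.main hInt hBound hCont
  have hAnn : TaskAnn := TaskAnn.main hCirc
  have hBil : TaskBil := TaskBil.main hInt hCont
  have hRank : TaskRank := TaskRank.main hPD hSymm hAnn hBil
  have hRefl : TaskRefl := TaskRefl.main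
  have hPR : TaskPotRefl := TaskPotRefl.main hRefl
  have hSolve : TaskSolve := TaskSolve.main hPD hOp hRefl hPR hBil hCont
  have hPpos : TaskPpos := TaskPpos.main hCont hSub hInf hMP hRefl hPR
  have hOrth : TaskOrth := TaskOrth.main hRefl hPR
  have hKey : TaskKey := TaskKey.main hSymm hPD hSolve hPpos hBil hRefl hPR
  have hDecomp : TaskDecomp := TaskDecomp.main hRefl
  exact ⟨TaskMin.main hAbs1 hOp hRank hSymm hBil, TaskBdd.main hBound,
    TaskTest.main hVpos hBil hOrth hKey hDecomp hRefl⟩

/-- **Theorem.** Let `Ω` be a bounded open subset of the plane and `H` an open half-plane. Then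
`τ(Ω) ≤ τ(P_H Ω)`; more precisely, for every negative eigenvalue `τ'` of `P_H Ω` there is an
eigenvalue `τ ≤ τ'` of `Ω`. -/
theorem result (n : ℂ) (c : ℝ) (hn : ‖n‖ = 1) (Ω : Set ℂ) (hΩ : IsOpen Ω)
    (hb : Bornology.IsBounded Ω) :
    tau Ω ≤ tau (polarization n c Ω) ∧
    ∀ τ' : ℝ, τ' < 0 → IsEigenvalue (polarization n c Ω) τ' →
      ∃ τ : ℝ, τ ≤ τ' ∧ IsEigenvalue Ω τ := by
  obtain ⟨hMin, hBdd, hTest⟩ := tasks
  refine ⟨Pool.Agent.Q40.LP.MainProof.main hMin hBdd hTest n c hn Ω hΩ hb, ?_⟩
  rintro τ' hτ' ⟨v, hv⟩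
  obtain ⟨u, hu1, hu2, hu3⟩ := hTest n c hn Ω hΩ hb τ' v hτ' hv
  obtain ⟨m, hm, w, hw⟩ := hMin Ω hΩ.measurableSet hb τ' u hu1 hu2 hτ' hu3
  exact ⟨m, hm, w, hw⟩

end Pool.Agent.Results.MP_86d647_an.PolarizationMonotone
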